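import Pool.Agent.Lib.MP_f79ffc_lc.Grz

open Pool.Agent.Lib.MP_f79ffc_lc

namespace Pool.Agent.Results.MP_f79ffc_lc.LargeUnivNull

/-- If some universally null set has at least `cof(N)` elements, then `add(UN) = add(N)`. -/
theorem result (Z : Set ℝ) (hZ : Z ∈ UnivNull) (hcard : cofI NullIdeal ≤ Cardinal.mk Z) :
    addI UnivNull = addI NullIdeal :=
  eq_of_large hZ hcard

end Pool.Agent.Results.MP_f79ffc_lc.LargeUnivNull
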